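import Pool.Agent.Lib.MP_7682a8_an.KB.Iface

/-!
# CON: continuity of `a`, `b` and of `J`
-/

set_option autoImplicit false

open Metric Set MeasureTheory Filter
open scoped Topology

namespace Pool.Agent.Lib.MP_7682a8_an.KB.H40

open Pool.Agent.Lib.MP_7682a8_an.KB

theorem ff_zero {h g : ℂ → ℂ} {δ : ℝ} (O : Om h g δ) : ff h g 0 = 0 := by
  simp [ff, O.h0, O.g0]

theorem ff_ne {h g : ℂ → ℂ} {δ : ℝ} (O : Om h g δ) {z : ℂ} (hz : z ∈ ball (0 : ℂ) 1)
    (h0 : z ≠ 0) : ff h g z ≠ 0 := by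
  intro hf
  apply h0
  apply O.inj hz (mem_ball_self one_pos)
  have := ff_zero O
  unfold ff at this hf
  simp only [hf, this]

theorem exp2_ne {h g : ℂ → ℂ} {δ : ℝ} {ξ : ℂ → ℂ} (O : Om h g δ) (B : Br h g δ ξ) {z : ℂ}
    (hz : z ∈ ball (0 : ℂ) 1) (h0 : z ≠ 0) : Complex.exp (2 * ξ z) - 1 ≠ 0 := by
  intro he
  apply ff_ne O hz h0
  have := B.exp z hz
  rw [he, mul_zero] at this
  unfold ff
  exact this.symm

theorem exp_add_ne {h g : ℂ → ℂ} {δ : ℝ} {ξ : ℂ → ℂ} (O : Om h g δ) (B : Br h g δ ξ) {z : ℂ}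
    (hz : z ∈ ball (0 : ℂ) 1) : Complex.exp (ξ z) + 1 ≠ 0 := by
  intro he
  by_cases h0 : z = 0
  · rw [h0, B.zero, Complex.exp_zero] at he
    norm_num at he
  · apply exp2_ne O B hz h0
    have h1 : Complex.exp (ξ z) = -1 := by linear_combination he
    rw [two_mul, Complex.exp_add, h1]
    norm_num

theorem den_ne {h g : ℂ → ℂ} {δ : ℝ} {ξ : ℂ → ℂ} (O : Om h g δ) (B : Br h g δ ξ) {z : ℂ}
    (hz : z ∈ ball (0 : ℂ) 1) (h0 : z ≠ 0) :
    (δ : ℂ) * (Complex.exp (2 * ξ z) - 1) * Complex.exp (ξ z) ≠ 0 :=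
  mul_ne_zero (mul_ne_zero (by exact_mod_cast O.pos.ne') (exp2_ne O B hz h0)) (Complex.exp_ne_zero _)

theorem den_cont {h g : ℂ → ℂ} {δ : ℝ} {ξ : ℂ → ℂ} (B : Br h g δ ξ) :
    ContinuousOn (fun z => (δ : ℂ) * (Complex.exp (2 * ξ z) - 1) * Complex.exp (ξ z))
      (ball (0 : ℂ) 1) := by
  have h1 : ContinuousOn ξ (ball (0 : ℂ) 1) := B.cont
  have h2 : ContinuousOn (fun z => Complex.exp (ξ z)) (ball (0 : ℂ) 1) :=
    Complex.continuous_exp.comp_continuousOn h1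
  have h3 : ContinuousOn (fun z => Complex.exp (2 * ξ z)) (ball (0 : ℂ) 1) :=
    Complex.continuous_exp.comp_continuousOn (continuousOn_const.mul h1)
  exact (continuousOn_const.mul (h3.sub continuousOn_const)).mul h2

theorem aa_cont {h g : ℂ → ℂ} {δ : ℝ} {ξ : ℂ → ℂ} (O : Om h g δ) (B : Br h g δ ξ) :
    ContinuousOn (aa h δ ξ) (ball (0 : ℂ) 1 \ {0}) := by
  have h1 : ContinuousOn (deriv h) (ball (0 : ℂ) 1) :=
    (O.dh.deriv isOpen_ball).continuousOn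
  exact ((continuousOn_id.mul h1).mono sdiff_subset).div ((den_cont B).mono sdiff_subset)
    (fun z hz => den_ne O B hz.1 (by simpa using hz.2))

theorem bb_cont {h g : ℂ → ℂ} {δ : ℝ} {ξ : ℂ → ℂ} (O : Om h g δ) (B : Br h g δ ξ) :
    ContinuousOn (bb g δ ξ) (ball (0 : ℂ) 1 \ {0}) := by
  have h1 : ContinuousOn (deriv g) (ball (0 : ℂ) 1) :=
    (O.dg.deriv isOpen_ball).continuousOn
  have h2 : ContinuousOn (fun z => starRingEnd ℂ (z * deriv g z)) (ball (0 : ℂ) 1) :=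
    Complex.continuous_conj.comp_continuousOn (continuousOn_id.mul h1)
  exact (h2.mono sdiff_subset).div ((den_cont B).mono sdiff_subset)
    (fun z hz => den_ne O B hz.1 (by simpa using hz.2))

theorem JJ_cont {h g : ℂ → ℂ} {δ : ℝ} {ξ : ℂ → ℂ} (O : Om h g δ) (B : Br h g δ ξ) :
    ContinuousOn (JJ h g δ ξ) (Ioo 0 1) := by
  rw [continuousOn_iff_continuous_domRestrict]
  have hm : ∀ (r : Ioo (0 : ℝ) 1) (θ : ℝ), circleMap 0 (r : ℝ) θ ∈ ball (0 : ℂ) 1 \ {0} := by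
    intro r θ
    have h1 : ‖circleMap 0 (r : ℝ) θ‖ = r := by
      rw [norm_circleMap_zero, abs_of_pos r.2.1]
    refine ⟨by rw [mem_ball_zero_iff, h1]; exact r.2.2, ?_⟩
    intro h2
    rw [mem_singleton_iff] at h2
    rw [h2, norm_zero] at h1
    exact r.2.1.ne h1
  have hc : Continuous (fun p : Ioo (0 : ℝ) 1 × ℝ => circleMap 0 (p.1 : ℝ) p.2) := by
    unfold circleMap
    fun_prop
  have key : Continuous (Function.uncurry fun (r : Ioo (0 : ℝ) 1) (θ : ℝ) =>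
      (‖aa h δ ξ (circleMap 0 (r : ℝ) θ)‖ ^ 2 - ‖bb g δ ξ (circleMap 0 (r : ℝ) θ)‖ ^ 2)) := by
    have ha : Continuous (fun p : Ioo (0 : ℝ) 1 × ℝ => aa h δ ξ (circleMap 0 (p.1 : ℝ) p.2)) :=
      (aa_cont O B).comp_continuous hc (fun p => hm p.1 p.2)
    have hb : Continuous (fun p : Ioo (0 : ℝ) 1 × ℝ => bb g δ ξ (circleMap 0 (p.1 : ℝ) p.2)) :=
      (bb_cont O B).comp_continuous hc (fun p => hm p.1 p.2)
    exact (ha.norm.pow 2).sub (hb.norm.pow 2)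
  exact intervalIntegral.continuous_parametric_intervalIntegral_of_continuous' key 0
    (2 * Real.pi)

theorem bb_le {h g : ℂ → ℂ} {δ : ℝ} {ξ : ℂ → ℂ} (S : Sw h g) {z : ℂ}
    (hz : z ∈ ball (0 : ℂ) 1) : ‖bb g δ ξ z‖ ≤ ‖z‖ * ‖aa h δ ξ z‖ := by
  unfold bb aa
  rw [norm_div, norm_div, ← mul_div_assoc]
  apply div_le_div_of_nonneg_right _ (norm_nonneg _)
  rw [Complex.norm_conj, norm_mul, norm_mul]
  exact mul_le_mul_of_nonneg_left (S z hz) (norm_nonneg _)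

/-- CON -/
theorem con : ConStmt := by
  intro h g δ ξ O B
  refine ⟨aa_cont O B, bb_cont O B, ?_, ?_, JJ_cont O B, fun S z hz => bb_le S hz⟩
  · intro z hz
    refine ⟨fun he => O.om z hz ?_, exp_add_ne O B hz⟩
    unfold ff at he
    linear_combination he
  · intro z hz h0
    refine ⟨exp2_ne O B hz h0, ?_⟩
    unfold qq
    refine div_ne_zero ?_ (exp_add_ne O B hz)
    intro he
    apply exp2_ne O B hz h0
    have h1 : Complex.exp (ξ z) = 1 := by linear_combination he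
    rw [two_mul, Complex.exp_add, h1]
    norm_num

end Pool.Agent.Lib.MP_7682a8_an.KB.H40
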